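import Pool.Agent.helper52.ED.SpecP

/-!
# Project ed: module PSR (power saving in the form of helper5)
-/

set_option autoImplicit false

open Complex Metric Set Filter Topology MeasureTheory
open Pool.Agent.helper98.ILF Pool.Agent.helper16.Multibrot HY
open DH (co Tow yv jj FA REL)

noncomputable section

namespace ED

theorem PSR (hPS : PS_stmt) : PSR_stmt := by
  intro n r M hn hr hM hCL
  obtain ⟨C, θ, E, hC, hθ0, hθ1, h⟩ := hPS n r M hn hr hM hCL
  have hs0 : (0 : ℝ) < (1 / 2 : ℝ) ^ (M + 2) := by positivity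
  have hs1 : (1 / 2 : ℝ) ^ (M + 2) ≤ 1 := pow_le_one₀ (by norm_num) (by norm_num)
  refine ⟨C * (1 / ((1 / 2 : ℝ) ^ (M + 2))) ^ E, θ, by positivity, hθ0, hθ1, ?_⟩
  intro c hc hdis Φ b k p t hFA g hg hg1
  have h1 := h c hc hdis Φ b k p t hFA g ((1 / 2 : ℝ) ^ (M + 2)) hg hg1 hs0 hs1
  have h2 : C * g ^ (-θ) * (1 / ((1 / 2 : ℝ) ^ (M + 2))) ^ E =
      C * (1 / ((1 / 2 : ℝ) ^ (M + 2))) ^ E * g ^ (-θ) := by ring
  rw [h2] at h1
  refine le_trans ?_ h1
  refine Nat.cast_le.mpr (Finset.card_le_card ?_)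
  intro i hi
  simp only [REL, Finset.mem_filter, Finset.mem_range] at hi ⊢
  obtain ⟨⟨hit, h3⟩, h4⟩ := hi
  exact ⟨hit, h4, by linarith⟩

end ED
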